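import Mathlib
import Pool.Agent.H4.QTree
import Pool.Agent.H4.RankMat

namespace Pool.Agent.Results.MP_8f56b8_lc.Oracle

open Finset Pool.Agent.H4.QTree Pool.Agent.H4.RankMat

/-- The rank oracle of a matroid on a finite type. -/
noncomputable def rk {S : Type} (M : Matroid S) (A : Finset S) : ℕ := (M.eRk (A : Set S)).toNat

/-- The objective `Φ(H) = 2 ∑ r(F_i ∪ H) - k r(H)`. -/
noncomputable def Phi {S : Type} [DecidableEq S] {k : ℕ} (M : Matroid S) (F : Fin k → Finset S)
    (H : Finset S) : ℤ :=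
  2 * ∑ i, (rk M (F i ∪ H) : ℤ) - (k : ℤ) * (rk M H : ℤ)

/-- `H` minimises `Φ`. -/
def IsMedian {S : Type} [DecidableEq S] {k : ℕ} (M : Matroid S) (F : Fin k → Finset S)
    (H : Finset S) : Prop :=
  ∀ H' : Finset S, Phi M F H ≤ Phi M F H'

section construction

variable (p : ℕ)

abbrev Pt := Fin (2 * p + 1) × Bool
abbrev Gr := Pt p ⊕ (Fin 3 × Fin (4 * p + 4))

def blk : Gr p → Option (Fin 3)
  | .inl _ => none
  | .inr y => some y.1

def part (o : Option (Fin 3)) : Finset (Gr p) := univ.filter fun e => blk p e = o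

def FF (i : Fin 3) : Finset (Gr p) := part p (some i)

variable {p}

def lev (z : Pt p → Bool) : Gr p → ℕ
  | .inl x => if z x then 2 * p + 1 else 2 * p + 2
  | .inr _ => p + 1

def pen (Y : Finset (Gr p)) (i : Fin 3) : ℕ := if (Y ∩ FF p i).Nonempty then 3 * p + 3 else 0

def ff (z : Pt p → Bool) (Y : Finset (Gr p)) : ℕ := Y.sup (lev z) + ∑ i, pen Y i

theorem pen_sub (A B : Finset (Gr p)) (i : Fin 3) :
    pen (A ∪ B) i + pen (A ∩ B) i ≤ pen A i + pen B i := by
  unfold pen
  have h1 : ((A ∪ B) ∩ FF p i).Nonempty → (A ∩ FF p i).Nonempty ∨ (B ∩ FF p i).Nonempty := by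
    rintro ⟨x, hx⟩
    simp only [mem_inter, mem_union] at hx
    rcases hx with ⟨h | h, h'⟩
    · exact Or.inl ⟨x, mem_inter.2 ⟨h, h'⟩⟩
    · exact Or.inr ⟨x, mem_inter.2 ⟨h, h'⟩⟩
  have h2 : ((A ∩ B) ∩ FF p i).Nonempty → (A ∩ FF p i).Nonempty ∧ (B ∩ FF p i).Nonempty := by
    rintro ⟨x, hx⟩
    simp only [mem_inter] at hx
    exact ⟨⟨x, mem_inter.2 ⟨hx.1.1, hx.2⟩⟩, ⟨x, mem_inter.2 ⟨hx.1.2, hx.2⟩⟩⟩
  split_ifs <;> first | omega | tauto

theorem ff_rank (z : Pt p → Bool) : IsRank (ind (ff z)) := by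
  refine ind_rank _ (by simp [ff, pen]) fun A B => ?_
  unfold ff
  have h1 : (A ∪ B).sup (lev z) = max (A.sup (lev z)) (B.sup (lev z)) := Finset.sup_union
  have h2 : (A ∩ B).sup (lev z) ≤ A.sup (lev z) := Finset.sup_mono inter_subset_left
  have h3 : (A ∩ B).sup (lev z) ≤ B.sup (lev z) := Finset.sup_mono inter_subset_right
  have h4 := pen_sub A B 0
  have h5 := pen_sub A B 1
  have h6 := pen_sub A B 2
  simp only [Fin.sum_univ_three]
  omega

noncomputable def MM (z : Pt p → Bool) : Matroid (Gr p) := (ff_rank z).mat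

theorem rk_MM (z : Pt p → Bool) : rk (MM z) = ind (ff z) := by
  funext A
  unfold rk MM
  rw [IsRank.mat_eRk]
  simp

theorem card_split (X : Finset (Gr p)) :
    X.card = (X ∩ part p none).card + (X ∩ FF p 0).card + (X ∩ FF p 1).card +
      (X ∩ FF p 2).card := by
  have h := Finset.card_eq_sum_card_fiberwise (s := X) (t := (univ : Finset (Option (Fin 3))))
    (f := blk p) (fun _ _ => mem_coe.2 (mem_univ _))
  rw [Fintype.sum_option, Fin.sum_univ_three] at h
  have h2 : ∀ o, X.filter (fun e => blk p e = o) = X ∩ part p o := by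
    intro o; ext e; simp [part]
  simp only [h2] at h
  unfold FF
  omega

theorem card_FF (i : Fin 3) : (FF p i).card = 4 * p + 4 := by
  have : FF p i = (univ : Finset (Fin (4 * p + 4))).map
      ⟨fun j => Sum.inr (i, j), fun a b h => by simpa using h⟩ := by
    ext e
    rcases e with x | ⟨a, b⟩
    · simp [FF, part, blk]
    · simp [FF, part, blk, eq_comm]
  rw [this]; simp

theorem lev_le (z : Pt p → Bool) (e : Gr p) : lev z e ≤ 2 * p + 2 := by
  rcases e with x | y
  · simp only [lev]; split_ifs <;> omega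
  · simp only [lev]; omega

theorem mem_T {e : Gr p} (he : e ∈ part p none) : ∃ x, e = Sum.inl x := by
  rcases e with x | y
  · exact ⟨x, rfl⟩
  · simp [part, blk] at he

theorem lev_T (z : Pt p → Bool) {e : Gr p} (he : e ∈ part p none) : 2 * p + 1 ≤ lev z e := by
  obtain ⟨x, rfl⟩ := mem_T he
  simp only [lev]; split_ifs <;> omega

theorem lev_nT (z : Pt p → Bool) {e : Gr p} (he : e ∉ part p none) : lev z e = p + 1 := by
  rcases e with x | y
  · simp [part, blk] at he
  · rfl

theorem T_FF {e : Gr p} (he : e ∈ part p none) (i : Fin 3) : e ∉ FF p i := by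
  simp only [FF, part, mem_filter, mem_univ, true_and] at he ⊢
  rw [he]; simp

theorem pen_congr {Y Y' : Finset (Gr p)} (h : ∀ e, e ∉ part p none → (e ∈ Y ↔ e ∈ Y')) :
    ∑ i, pen Y i = ∑ i, pen Y' i := by
  refine Finset.sum_congr rfl fun i _ => ?_
  have : Y ∩ FF p i = Y' ∩ FF p i := by
    ext e
    simp only [mem_inter]
    by_cases he : e ∈ part p none
    · have := T_FF he i; tauto
    · rw [h e he]
  unfold pen; rw [this]

def z0 : Pt p → Bool := fun _ => false

/-- Hiding: a set on which the ranks differ reveals a large part of the hidden set. -/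
theorem hide (z : Pt p → Bool) (A : Finset (Gr p)) (h : ind (ff z) A ≠ ind (ff z0) A) :
    (∀ x, Sum.inl x ∈ A → z x = true) ∧ p + 1 ≤ (A ∩ part p none).card := by
  have hle : ind (ff z) A ≤ ind (ff z0) A := by
    obtain ⟨Y, hY⟩ := ind_ex (ff z0) A
    have h1 := ind_le (ff z) A Y
    have h2 : Y.sup (lev z) ≤ Y.sup (lev z0) := by
      refine Finset.sup_mono_fun fun e _ => ?_
      rcases e with x | y
      · simp only [lev, z0]; split_ifs <;> simp_all
      · exact le_rfl
    unfold ff at h1 hY ⊢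
    omega
  have hlt : ind (ff z) A < ind (ff z0) A := lt_of_le_of_ne hle h
  obtain ⟨Y, hY⟩ := ind_ex (ff z) A
  have hYT : ∃ e ∈ Y, e ∈ part p none := by
    by_contra hc
    push Not at hc
    have h1 := ind_le (ff z0) A Y
    have h2 : Y.sup (lev z0) = Y.sup (lev z) :=
      Finset.sup_congr rfl fun e he => by rw [lev_nT _ (hc e he), lev_nT _ (hc e he)]
    unfold ff at h1 hY hlt
    omega
  obtain ⟨e0, he0, he0T⟩ := hYT
  have hsup : 2 * p + 1 ≤ Y.sup (lev z) := (lev_T z he0T).trans (Finset.le_sup he0)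
  constructor
  · intro x hx
    by_contra hz
    by_cases hxY : Sum.inl x ∈ Y
    · have h1 := ind_le (ff z0) A Y
      have h2 : Y.sup (lev z0) ≤ 2 * p + 2 := Finset.sup_le fun e _ => lev_le _ e
      have h3 : lev z (Sum.inl x) ≤ Y.sup (lev z) := Finset.le_sup hxY
      have h4 : lev z (Sum.inl x) = 2 * p + 2 := by simp [lev, hz]
      unfold ff at h1 hY hlt
      omega
    · have h1 := ind_le (ff z0) A (insert (Sum.inl x) Y)
      have h2 : (insert (Sum.inl x) Y).sup (lev z0) ≤ 2 * p + 2 :=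
        Finset.sup_le fun e _ => lev_le _ e
      have h3 : ∑ i, pen (insert (Sum.inl x) Y) i = ∑ i, pen Y i := pen_congr (by
        intro e he
        have : e ≠ Sum.inl x := by rintro rfl; simp [part, blk] at he
        simp [this])
      have h4 : (A \ insert (Sum.inl x) Y).card < (A \ Y).card := by
        refine card_lt_card ⟨sdiff_subset_sdiff subset_rfl (subset_insert _ _), fun hs => ?_⟩
        have := hs (mem_sdiff.2 ⟨hx, hxY⟩)
        simp at this
      unfold ff at h1 hY hlt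
      omega
  · have h1 := ind_le (ff z0) A (Y \ part p none)
    have h2 : (Y \ part p none).sup (lev z0) ≤ p + 1 :=
      Finset.sup_le fun e he => (lev_nT _ (mem_sdiff.1 he).2).le
    have h3 : ∑ i, pen (Y \ part p none) i = ∑ i, pen Y i := pen_congr (by
      intro e he; simp [he])
    have h4 : (A \ (Y \ part p none)).card ≤ (A \ Y).card + (A ∩ part p none).card := by
      refine le_trans (card_le_card ?_) (card_union_le _ _)
      intro e; simp only [mem_sdiff, mem_union, mem_inter]; tauto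
    unfold ff at h1 hY hlt
    omega

def zs (σ : Fin (2 * p + 1) → Bool) : Pt p → Bool := fun x => decide (x.2 = σ x.1)

open Classical in
theorem count (A : Finset (Gr p)) :
    (univ.filter fun σ : Fin (2 * p + 1) → Bool => ind (ff (zs σ)) A ≠ ind (ff z0) A).card ≤
      2 ^ p := by
  rcases (univ.filter fun σ : Fin (2 * p + 1) → Bool =>
    ind (ff (zs σ)) A ≠ ind (ff z0) A).eq_empty_or_nonempty with h | ⟨σ0, h0⟩
  · rw [h]; simp
  obtain ⟨h1, h2⟩ := hide _ A (mem_filter.1 h0).2
  set D : Finset (Fin (2 * p + 1)) := univ.filter fun i => Sum.inl (i, σ0 i) ∈ A with hD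
  have hDc : p + 1 ≤ D.card := by
    refine h2.trans (le_trans (card_le_card (t := D.image fun i => Sum.inl (i, σ0 i)) ?_)
      card_image_le)
    intro e he
    obtain ⟨he1, he2⟩ := mem_inter.1 he
    obtain ⟨⟨i, b⟩, rfl⟩ := mem_T he2
    have := h1 _ he1
    simp only [zs, decide_eq_true_eq] at this
    subst this
    exact mem_image.2 ⟨i, by simp [hD, he1], rfl⟩
  have hc : (Dᶜ).card ≤ p := by
    have := Finset.card_compl D
    simp only [Fintype.card_fin] at this
    omega
  calc _ ≤ (univ : Finset (↥(Dᶜ) → Bool)).card := by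
        refine card_le_card_of_injOn (fun σ i => σ i.1) (fun _ _ => mem_coe.2 (mem_univ _)) ?_
        intro σ hσ τ hτ hστ
        have hσ' := (hide _ A (mem_filter.1 (mem_coe.1 hσ)).2).1
        have hτ' := (hide _ A (mem_filter.1 (mem_coe.1 hτ)).2).1
        funext i
        by_cases hi : i ∈ D
        · have hA : Sum.inl (i, σ0 i) ∈ A := (mem_filter.1 hi).2
          have a := hσ' _ hA
          have b := hτ' _ hA
          simp only [zs, decide_eq_true_eq] at a b
          rw [← a, ← b]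
        · exact congrFun hστ ⟨i, mem_compl.2 hi⟩
    _ = 2 ^ (Dᶜ).card := by
        rw [card_univ, Fintype.card_fun, Fintype.card_bool, Fintype.card_coe]
    _ ≤ 2 ^ p := Nat.pow_le_pow_right (by norm_num) hc

def ZZ (σ : Fin (2 * p + 1) → Bool) : Finset (Gr p) :=
  (univ : Finset (Fin (2 * p + 1))).map ⟨fun i => Sum.inl (i, σ i), fun a b h => by
    simp only [Sum.inl.injEq, Prod.mk.injEq] at h; exact h.1⟩

theorem phi_Z (σ : Fin (2 * p + 1) → Bool) :
    Phi (MM (zs σ)) (FF p) (ZZ σ) ≤ 24 * p + 21 := by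
  have hZT : ∀ e ∈ ZZ σ, e ∈ part p none := by
    intro e he
    obtain ⟨i, _, rfl⟩ := mem_map.1 he
    simp [part, blk]
  have h1 : ∀ i, ind (ff (zs σ)) (FF p i ∪ ZZ σ) ≤ 5 * p + 4 := by
    intro i
    have h := ind_le (ff (zs σ)) (FF p i ∪ ZZ σ) (FF p i ∪ ZZ σ)
    have h2 : (FF p i ∪ ZZ σ).sup (lev (zs σ)) ≤ 2 * p + 1 := by
      refine Finset.sup_le fun e he => ?_
      rcases mem_union.1 he with he | he
      · rw [lev_nT _ fun hT => T_FF hT i he]; omega
      · obtain ⟨j, _, rfl⟩ := mem_map.1 he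
        simp [lev, zs]
    have h3 : ∀ j, j ≠ i → pen (FF p i ∪ ZZ σ) j = 0 := by
      intro j hj
      unfold pen
      rw [if_neg]
      rintro ⟨e, he⟩
      obtain ⟨he1, he2⟩ := mem_inter.1 he
      rcases mem_union.1 he1 with he1 | he1
      · simp only [FF, part, mem_filter, mem_univ, true_and] at he1 he2
        rw [he1] at he2
        exact hj (Option.some.inj he2).symm
      · exact T_FF (hZT e he1) j he2
    have h4 : ∑ j, pen (FF p i ∪ ZZ σ) j ≤ 3 * p + 3 := by
      rw [Finset.sum_eq_single i (fun j _ hj => h3 j hj) (by simp)]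
      unfold pen; split_ifs <;> omega
    unfold ff at h ⊢
    simp only [sdiff_self, bot_eq_empty, card_empty] at h
    omega
  have h2 : 2 * p + 1 ≤ ind (ff (zs σ)) (ZZ σ) := by
    obtain ⟨Y, hY⟩ := ind_ex (ff (zs σ)) (ZZ σ)
    by_cases hc : ∃ e ∈ Y, e ∈ part p none
    · obtain ⟨e, he, heT⟩ := hc
      have : 2 * p + 1 ≤ Y.sup (lev (zs σ)) := (lev_T _ heT).trans (Finset.le_sup he)
      unfold ff at hY ⊢
      omega
    · push Not at hc
      have : ZZ σ \ Y = ZZ σ := by
        ext e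
        simp only [mem_sdiff]
        exact ⟨fun h => h.1, fun h => ⟨h, fun hY => hc e hY (hZT e h)⟩⟩
      rw [this] at hY
      have : (ZZ σ).card = 2 * p + 1 := by simp [ZZ]
      omega
  unfold Phi
  rw [rk_MM, Fin.sum_univ_three]
  have a := h1 0
  have b := h1 1
  have c := h1 2
  push_cast
  omega

theorem low (H : Finset (Gr p)) (i : Fin 3) :
    4 * p + 4 + min (H ∩ part p none).card (p + 1) + min (H ∩ FF p 0).card (3 * p + 3) +
      min (H ∩ FF p 1).card (3 * p + 3) + min (H ∩ FF p 2).card (3 * p + 3) ≤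
      ind (ff z0) (FF p i ∪ H) + min (H ∩ FF p i).card (3 * p + 3) := by
  obtain ⟨Y, hY⟩ := ind_ex (ff z0) (FF p i ∪ H)
  have hs := card_split ((FF p i ∪ H) \ Y)
  have h1 : ∀ j, min (H ∩ FF p j).card (3 * p + 3) ≤
      pen Y j + (((FF p i ∪ H) \ Y) ∩ FF p j).card := by
    intro j
    unfold pen
    split_ifs with hj
    · omega
    · have : (H ∩ FF p j).card ≤ (((FF p i ∪ H) \ Y) ∩ FF p j).card := by
        refine card_le_card fun e he => ?_
        simp only [mem_inter, mem_sdiff, mem_union] at he ⊢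
        exact ⟨⟨Or.inr he.1, fun h => hj ⟨e, mem_inter.2 ⟨h, he.2⟩⟩⟩, he.2⟩
      omega
  have h2 : (pen Y i = 3 * p + 3 ∧ p + 1 ≤ Y.sup (lev z0)) ∨
      4 * p + 4 ≤ (((FF p i ∪ H) \ Y) ∩ FF p i).card := by
    by_cases hj : (Y ∩ FF p i).Nonempty
    · left
      refine ⟨by unfold pen; rw [if_pos hj], ?_⟩
      obtain ⟨e, he⟩ := hj
      obtain ⟨he1, he2⟩ := mem_inter.1 he
      rw [← lev_nT z0 fun hT => T_FF hT i he2]
      exact Finset.le_sup he1
    · right
      refine (card_FF i).ge.trans (card_le_card fun e he => ?_)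
      simp only [mem_inter, mem_sdiff, mem_union]
      exact ⟨⟨Or.inl he, fun h => hj ⟨e, mem_inter.2 ⟨h, he⟩⟩⟩, he⟩
  have h3 : 2 * p + 2 ≤ Y.sup (lev z0) ∨
      (H ∩ part p none).card ≤ (((FF p i ∪ H) \ Y) ∩ part p none).card := by
    by_cases hc : ∃ e ∈ Y, e ∈ part p none
    · left
      obtain ⟨e, he, heT⟩ := hc
      obtain ⟨x, rfl⟩ := mem_T heT
      have : lev z0 (Sum.inl x : Gr p) = 2 * p + 2 := by simp [lev, z0]
      rw [← this]
      exact Finset.le_sup he
    · right
      push Not at hc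
      refine card_le_card fun e he => ?_
      simp only [mem_inter, mem_sdiff, mem_union] at he ⊢
      exact ⟨⟨Or.inr he.1, fun h => hc e h he.2⟩, he.2⟩
  have a := h1 0
  have b := h1 1
  have c := h1 2
  rw [hY]
  unfold ff
  rw [Fin.sum_univ_three, hs]
  clear hY hs h1
  fin_cases i <;> simp only [Fin.zero_eta, Fin.mk_one, Fin.reduceFinMk] at * <;> omega

theorem phi_0 (H : Finset (Gr p)) : 24 * p + 24 ≤ Phi (MM z0) (FF p) H := by
  have a := low H 0
  have b := low H 1
  have c := low H 2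
  have hs := card_split H
  have h1 : ind (ff z0) H ≤ H.card := (ff_rank z0).le_card H
  have h2 := ind_le (ff z0) H (H ∩ part p none)
  have h3 : (H ∩ part p none).sup (lev z0) ≤ 2 * p + 2 := Finset.sup_le fun e _ => lev_le _ e
  have h4 : ∑ i, pen (H ∩ part p none) i = ∑ i, pen (∅ : Finset (Gr p)) i := pen_congr (by
    intro e he; simp [he])
  have h5 : ∑ i, pen (∅ : Finset (Gr p)) i = 0 := by simp [pen]
  have h6 : (H \ (H ∩ part p none)).card + (H ∩ part p none).card = H.card :=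
    card_sdiff_add_card_eq_card inter_subset_left
  have h7 : ∀ j, (H ∩ FF p j).card ≤ 4 * p + 4 := fun j =>
    (card_le_card inter_subset_right).trans (card_FF j).le
  have h70 := h7 0
  have h71 := h7 1
  have h72 := h7 2
  have h8 : ind (ff z0) H ≤ 2 * p + 2 + (H \ (H ∩ part p none)).card := by
    unfold ff at h2 ⊢
    omega
  unfold Phi
  rw [rk_MM, Fin.sum_univ_three]
  push_cast
  clear h2 h3 h4 h5 h7
  omega

open Classical in
theorem count' (H : Finset (Gr p)) :
    (univ.filter fun σ : Fin (2 * p + 1) → Bool => IsMedian (MM (zs σ)) (FF p) H).card ≤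
      4 * 2 ^ p := by
  have hsub : (univ.filter fun σ : Fin (2 * p + 1) → Bool => IsMedian (MM (zs σ)) (FF p) H) ⊆
      ((univ.filter fun σ => ind (ff (zs σ)) H ≠ ind (ff z0) H) ∪
      (univ.filter fun σ => ind (ff (zs σ)) (FF p 0 ∪ H) ≠ ind (ff z0) (FF p 0 ∪ H))) ∪
      ((univ.filter fun σ => ind (ff (zs σ)) (FF p 1 ∪ H) ≠ ind (ff z0) (FF p 1 ∪ H)) ∪
      (univ.filter fun σ => ind (ff (zs σ)) (FF p 2 ∪ H) ≠ ind (ff z0) (FF p 2 ∪ H))) := by
    intro σ hσ
    have h1 := (mem_filter.1 hσ).2 (ZZ σ)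
    have h2 := phi_Z σ
    have h3 := phi_0 H
    by_contra hc
    simp only [mem_union, mem_filter, mem_univ, true_and, not_or, not_not] at hc
    obtain ⟨⟨e1, e2⟩, e3, e4⟩ := hc
    have : Phi (MM (zs σ)) (FF p) H = Phi (MM z0) (FF p) H := by
      unfold Phi
      rw [rk_MM, rk_MM, Fin.sum_univ_three, Fin.sum_univ_three, e1, e2, e3, e4]
    omega
  have a := count H
  have b := count (FF p 0 ∪ H)
  have c := count (FF p 1 ∪ H)
  have d := count (FF p 2 ∪ H)
  have e := (card_le_card hsub).trans (card_union_le _ _)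
  have f := card_union_le (univ.filter fun σ => ind (ff (zs σ)) H ≠ ind (ff z0) H)
    (univ.filter fun σ => ind (ff (zs σ)) (FF p 0 ∪ H) ≠ ind (ff z0) (FF p 0 ∪ H))
  have g := card_union_le
    (univ.filter fun σ => ind (ff (zs σ)) (FF p 1 ∪ H) ≠ ind (ff z0) (FF p 1 ∪ H))
    (univ.filter fun σ => ind (ff (zs σ)) (FF p 2 ∪ H) ≠ ind (ff z0) (FF p 2 ∪ H))
  omega

end construction

open Classical in
theorem expo (p : ℕ) (J : Type) [Fintype J] (T : J → Alg (Finset (Gr p)) ℕ (Finset (Gr p)))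
    (q : ℕ) (hq : ∀ (j : J) (M : Matroid (Gr p)), M.E = Set.univ → (T j).cost (rk M) ≤ q) :
    ∃ M : Matroid (Gr p), M.E = Set.univ ∧
      (univ.filter fun j => IsMedian M (FF p) ((T j).run (rk M))).card * 2 ^ (p + 1) ≤
        Fintype.card J * (q + 4) := by
  obtain ⟨σ, hσ⟩ := hide_family (rk (MM (z0 (p := p)))) (fun σ => rk (MM (zs σ)))
    (fun σ H => IsMedian (MM (zs σ)) (FF p) H) (2 ^ p) (4 * 2 ^ p) q
    (fun A => by simpa only [rk_MM] using count A) count' T (fun j => hq j _ rfl)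
  refine ⟨MM (zs σ), rfl, ?_⟩
  have hc : Fintype.card (Fin (2 * p + 1) → Bool) = 2 ^ (p + 1) * 2 ^ p := by
    simp only [Fintype.card_pi, Fintype.card_bool, prod_const, card_univ, Fintype.card_fin]
    ring
  rw [hc] at hσ
  refine Nat.le_of_mul_le_mul_right (c := 2 ^ p) ?_ (by positivity)
  nlinarith

theorem grow (c : ℕ) : ∃ p : ℕ, (16 * p + 19) ^ c + 4 < 2 ^ (p + 1) := by
  have h := tendsto_pow_const_div_const_pow_of_one_lt c (r := (2 : ℝ)) (by norm_num)
  have h1 : ∀ᶠ n : ℕ in Filter.atTop, (n : ℝ) ^ c / 2 ^ n < 1 / 35 ^ c :=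
    h.eventually (gt_mem_nhds (by positivity))
  obtain ⟨n, hn, hn2⟩ := (h1.and (Filter.eventually_ge_atTop 2)).exists
  refine ⟨n, ?_⟩
  rw [div_lt_div_iff₀ (by positivity) (by positivity)] at hn
  have h2 : n ^ c * 35 ^ c < 2 ^ n := by
    rw [one_mul] at hn
    exact_mod_cast hn
  have h3 : (16 * n + 19) ^ c ≤ n ^ c * 35 ^ c := by
    rw [← mul_pow]; exact Nat.pow_le_pow_left (by omega) _
  have h4 : 2 ^ 2 ≤ 2 ^ n := Nat.pow_le_pow_right (by norm_num) hn2
  rw [pow_succ]
  omega

open Classical in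
theorem result :
    (∀ p : ℕ, ∃ (S : Type) (_ : Fintype S) (_ : DecidableEq S) (F : Fin 3 → Finset S),
      Fintype.card S = 16 * p + 14 ∧
      ∀ (J : Type) [Fintype J] (T : J → Alg (Finset S) ℕ (Finset S)) (q : ℕ),
        (∀ (j : J) (M : Matroid S), M.E = Set.univ → (T j).cost (rk M) ≤ q) →
        ∃ M : Matroid S, M.E = Set.univ ∧
          (univ.filter fun j => IsMedian M F ((T j).run (rk M))).card * 2 ^ (p + 1) ≤
            Fintype.card J * (q + 4)) ∧
    ¬ ∃ c : ℕ, ∀ (S : Type) [Fintype S] [DecidableEq S] (k : ℕ) (F : Fin k → Finset S),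
      ∃ T : Alg (Finset S) ℕ (Finset S), ∀ M : Matroid S, M.E = Set.univ →
        IsMedian M F (T.run (rk M)) ∧ T.cost (rk M) ≤ (Fintype.card S + k + 2) ^ c := by
  have hcard : ∀ p, Fintype.card (Gr p) = 16 * p + 14 := by
    intro p; simp; ring
  refine ⟨fun p => ⟨Gr p, inferInstance, inferInstance, FF p, hcard p, expo p⟩, ?_⟩
  rintro ⟨c, hc⟩
  obtain ⟨p, hp⟩ := grow c
  obtain ⟨T, hT⟩ := hc (Gr p) 3 (FF p)
  obtain ⟨M, hM, h⟩ := expo p Unit (fun _ => T) ((16 * p + 19) ^ c) (fun _ M hM => by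
    have := (hT M hM).2
    rwa [hcard] at this)
  rw [Finset.filter_true_of_mem fun _ _ => (hT M hM).1] at h
  simp at h
  omega

end Pool.Agent.Results.MP_8f56b8_lc.Oracle
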